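import Mathlib

set_option autoImplicit false

namespace Pool.Agent.Results.MP_057a77_an.Counter

open Complex Real

/-- The Zak transform. -/
noncomputable def Z (f : ℝ → ℂ) (t ξ : ℝ) : ℂ := ∑' k : ℤ, f (t + k) * cexp (2 * π * I * k * ξ)

/-- The symbol of a finitely supported mask. -/
noncomputable def D (d : ℤ →₀ ℂ) (ξ : ℝ) : ℂ := d.sum fun k c => c * cexp (2 * π * I * k * ξ)

noncomputable def hat (t : ℝ) : ℝ := max 0 (1 - |t| / 3)

lemma hat0 {t : ℝ} (h : 3 ≤ |t|) : hat t = 0 := max_eq_left (by linarith)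

lemma dil (t : ℝ) : hat (t / 2) = 1 / 2 * hat (t + 3) + hat t + 1 / 2 * hat (t - 3) := by
  unfold hat
  simp only [max_def, abs]
  split_ifs <;> linarith

lemma zero {t : ℝ} (h0 : 0 ≤ t) (h1 : t < 1) (m : ℤ) :
    Z (fun t => hat t) (t + m) (1 / 3) = 0 := by
  set w := cexp (2 * π * I / 3) with hw
  have w3 : w ^ 3 = 1 := by
    rw [hw, ← Complex.exp_nat_mul, show ((3 : ℕ) : ℂ) * (2 * π * I / 3) = 2 * π * I by push_cast; ring,
      exp_two_pi_mul_I]
  have w1 : w ≠ 1 := by
    rw [hw, Ne, Complex.exp_eq_one_iff]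
    rintro ⟨n, hn⟩
    have : (3 * n : ℂ) = 1 := by
      have := two_pi_I_ne_zero
      field_simp at hn
      linear_combination -hn
    norm_cast at this
    omega
  have w2 : w ^ 2 + w + 1 = 0 := mul_left_cancel₀ (sub_ne_zero.2 w1) (by linear_combination w3)
  have w0 : w ≠ 0 := Complex.exp_ne_zero _
  have e : ∀ k : ℤ, cexp (2 * π * I * k * (1 / 3 : ℝ)) = w ^ k := fun k => by
    rw [hw, ← Complex.exp_int_mul]
    congr 1
    push_cast
    ring
  unfold Z
  rw [← (Equiv.subRight (m + 3)).tsum_eq, tsum_eq_sum (s := {0, 1, 2, 3, 4, 5})]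
  · simp only [e, Equiv.subRight_apply, zpow_sub₀ w0, ← mul_div_assoc, ← Finset.sum_div]
    have a : ∀ k : ℤ, t + m + (k - (m + 3) : ℤ) = t + k - 3 := fun k => by push_cast; ring
    have b : ∀ s, s ≤ 3 → 0 ≤ s → hat (s - 3) = s / 3 := fun s s1 s2 => by
      rw [hat, abs_of_nonpos (by linarith), max_eq_right] <;> linarith
    have c : ∀ s, s ≤ 6 → 3 ≤ s → hat (s - 3) = 2 - s / 3 := fun s s1 s2 => by
      rw [hat, abs_of_nonneg (by linarith), max_eq_right] <;> linarith
    simp only [a, div_eq_zero_iff]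
    left
    simp only [Finset.mem_insert, Finset.mem_singleton, Int.reduceEq, or_self, not_false_eq_true,
      Finset.sum_insert, Finset.sum_singleton]
    push_cast
    rw [b _ (by linarith) (by linarith), b _ (by linarith) (by linarith),
      b _ (by linarith) (by linarith), c _ (by linarith) (by linarith),
      c _ (by linarith) (by linarith), c _ (by linarith) (by linarith)]
    simp only [zpow_ofNat]
    push_cast
    linear_combination w2 + ((1 - t / 3) + (2 - t) / 3 * w + (1 - t) / 3 * w ^ 2) * w3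
  · intro k hk
    simp only [Finset.mem_insert, Finset.mem_singleton] at hk
    have : k ≤ -1 ∨ 6 ≤ k := by omega
    beta_reduce
    rw [hat0, ofReal_zero, zero_mul]
    rw [le_abs]
    simp only [Equiv.subRight_apply]
    push_cast
    rcases this with h | h
    · have : (k : ℝ) ≤ -1 := by exact_mod_cast h
      right
      linarith
    · have : (6 : ℝ) ≤ k := by exact_mod_cast h
      left
      linarith

theorem result : ∃ (φ : ℝ → ℂ) (d : ℤ →₀ ℂ), φ ≠ 0 ∧ Continuous φ ∧ HasCompactSupport φ ∧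
    (∀ t, φ (t / 2) = d.sum fun k c => c * φ (t - k)) ∧
    (∀ ξ, ¬ (D d ξ = 0 ∧ D d (ξ + 1 / 2) = 0)) ∧ ∀ t, Z φ t (1 / 3) = 0 := by
  refine ⟨fun t => hat t, .single (-3) (1 / 2) + .single 0 1 + .single 3 (1 / 2), fun h => ?_,
    by unfold hat; fun_prop, ?_, fun t => ?_, fun ξ ⟨h1, h2⟩ => ?_, fun t => ?_⟩
  · simpa [hat] using congrFun h 0
  · refine .intro (isCompact_Icc (a := -3) (b := 3)) fun t ht => ?_
    rw [hat0 (not_lt.1 fun h => ht ⟨(abs_lt.1 h).1.le, (abs_lt.1 h).2.le⟩), ofReal_zero]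
  · simp [Finsupp.sum_add_index', add_mul, dil]
  · have a : cexp (2 * π * I * 3 * (ξ + 1 / 2)) = -cexp (2 * π * I * 3 * ξ) := by
      rw [show 2 * π * I * 3 * (ξ + 1 / 2) = 2 * π * I * 3 * ξ + π * I + 2 * π * I by ring,
        Complex.exp_add, Complex.exp_add, exp_two_pi_mul_I, exp_pi_mul_I]
      ring
    simp only [D, Finsupp.sum_add_index', zero_mul, add_mul, implies_true,
      Finsupp.sum_single_index] at h1 h2
    push_cast at h1 h2
    simp only [mul_neg, neg_mul, Complex.exp_neg, a, mul_zero, zero_mul, Complex.exp_zero,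
      inv_neg] at h1 h2
    have : (2 : ℂ) = 0 := by linear_combination h1 + h2
    norm_num at this
  · simpa using zero (Int.fract_nonneg t) (Int.fract_lt_one t) ⌊t⌋

end Pool.Agent.Results.MP_057a77_an.Counter
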